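import Pool.Agent.Lib.helper21.Cuts

set_option autoImplicit false

namespace Pool.Agent.H.MP_56eb46_lc

open List Pool.Agent.Lib.helper21

variable {Z σ : Type} (δ : σ → Z → σ) (s : σ)

def V (w : List Z) : Set σ := {q | ∃ a, a <+: w ∧ a.foldl δ s = q}

def Cyc (w c : List Z) : Prop := ∃ q ∈ V δ s w, c.foldl δ q = q

variable {δ s}

theorem V_append {a a' : List Z} (e : a.foldl δ s = a'.foldl δ s) (h : V δ s a ⊆ V δ s a')
    (b : List Z) : V δ s (a ++ b) ⊆ V δ s (a' ++ b) := by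
  rintro _ ⟨x, hx, rfl⟩
  rcases prefix_or_prefix_of_prefix hx (prefix_append a b) with h1 | ⟨t, rfl⟩
  · obtain ⟨y, hy, e'⟩ := h ⟨x, h1, rfl⟩
    exact ⟨y, hy.trans (prefix_append _ _), e'⟩
  · exact ⟨a' ++ t, (prefix_append_right_inj _).2 ((prefix_append_right_inj _).1 hx), by simp [e]⟩

theorem V_mono (a b : List Z) : V δ s a ⊆ V δ s (a ++ b) :=
  fun _ ⟨x, hx, e⟩ => ⟨x, hx.trans (prefix_append _ _), e⟩

theorem rep [Finite σ] (n : ℕ) : ∀ w : List Z, w.length ≤ n → ∃ (w0 : List Z) (cs : List (List Z)),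
    w0.length ≤ Nat.card (σ × Set σ) ∧ w0.foldl δ s = w.foldl δ s ∧ V δ s w ⊆ V δ s w0 ∧
    (∀ c ∈ cs, c.length ≤ Nat.card (σ × Set σ) ∧ Cyc δ s w0 c) ∧ w ~ w0 ++ cs.flatten := by
  induction n with
  | zero => intro w hw; exact ⟨w, [], by omega, rfl, le_rfl, by simp, by simp⟩
  | succ n ih =>
    intro w hw
    by_cases h : w.length ≤ Nat.card (σ × Set σ)
    · exact ⟨w, [], h, rfl, le_rfl, by simp, by simp⟩
    obtain ⟨a, c, b, rfl, e, h1, h2⟩ := Cuts.two (f := fun z => [z]) (by simp)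
      (fun a => (a.foldl δ s, V δ s a)) w (by simp only [flatMap_singleton']; omega)
    obtain ⟨e1, e2⟩ := Prod.mk.inj e
    simp only [flatMap_singleton', length_append] at h1 h2 hw
    obtain ⟨w0, cs, a1, a2, a3, a4, a5⟩ := ih (a ++ b) (by simp; omega)
    refine ⟨w0, c :: cs, a1, by rw [a2, foldl_append, foldl_append (l := a ++ c), ← e1],
      (V_append e1.symm e2.ge b).trans a3, ?_, ?_⟩
    · intro x hx
      rcases mem_cons.1 hx with rfl | hx
      · exact ⟨by omega, _, a3 ⟨a, prefix_append _ _, rfl⟩, by rw [← foldl_append, ← e1]⟩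
      · exact a4 x hx
    · rw [flatten_cons]
      refine Perm.trans ?_ ((a5.append_left c).trans (perm_append_comm_assoc _ _ _))
      rw [append_assoc]; exact perm_append_comm_assoc _ _ _

theorem real (w0 : List Z) (cs : List (List Z)) : (∀ c ∈ cs, Cyc δ s w0 c) →
    ∃ w : List Z, w.foldl δ s = w0.foldl δ s ∧ V δ s w0 ⊆ V δ s w ∧ w ~ w0 ++ cs.flatten := by
  induction cs with
  | nil => intro _; exact ⟨w0, rfl, le_rfl, by simp⟩
  | cons c cs ih =>
    intro h
    obtain ⟨w, a1, a2, a3⟩ := ih fun x hx => h x (by simp [hx])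
    obtain ⟨q, hq, e⟩ := h c (by simp)
    obtain ⟨a, ⟨b, rfl⟩, rfl⟩ := a2 hq
    have e1 : a.foldl δ s = (a ++ c).foldl δ s := by rw [foldl_append, e]
    refine ⟨a ++ c ++ b, by rw [← a1, foldl_append, ← e1, foldl_append],
      a2.trans (V_append e1 (V_mono _ _) b), ?_⟩
    rw [flatten_cons]
    refine Perm.trans ?_ ((a3.append_left c).trans (perm_append_comm_assoc _ _ _))
    rw [append_assoc]; exact perm_append_comm_assoc _ _ _

variable {k : ℕ}

def cnt (f : Z → List (Fin k)) (j : Fin k) (w : List Z) : ℕ := (w.flatMap f).count j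

theorem cnt_append (f : Z → List (Fin k)) (j : Fin k) (a b : List Z) :
    cnt f j (a ++ b) = cnt f j a + cnt f j b := by simp [cnt]

theorem cnt_perm (f : Z → List (Fin k)) (j : Fin k) {a b : List Z} (h : a ~ b) :
    cnt f j a = cnt f j b := (h.flatMap_right f).count_eq j

theorem cnt_rep (f : Z → List (Fin k)) (j : Fin k) (t : ℕ) (c : List Z) :
    cnt f j (replicate t c).flatten = t * cnt f j c := by
  induction t with
  | zero => simp [cnt]
  | succ t ih => rw [replicate_succ, flatten_cons, cnt_append, ih]; ring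

theorem cnt_le {f : Z → List (Fin k)} (hf : ∀ z, (f z).length ≤ 1) (j : Fin k) (w : List Z) :
    cnt f j w ≤ w.length := count_le_length.trans (Cuts.len_le hf w)

theorem pump {w : List Z} (e : Fin k → List Z) (he : ∀ l, Cyc δ s w (e l)) (t : Fin k → ℕ) :
    ∃ w' : List Z, w'.foldl δ s = w.foldl δ s ∧
      ∀ (f : Z → List (Fin k)) j, cnt f j w' = cnt f j w + ∑ l, t l * cnt f j (e l) := by
  obtain ⟨w', a1, -, a2⟩ := real w ((finRange k).flatMap fun l => replicate (t l) (e l)) (by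
    intro c hc
    obtain ⟨l, -, h⟩ := mem_flatMap.1 hc
    rw [eq_of_mem_replicate h]; exact he l)
  refine ⟨w', a1, fun f j => ?_⟩
  rw [cnt_perm f j a2, cnt_append, Fin.sum_univ_def]
  congr 1
  induction finRange k with
  | nil => simp [cnt]
  | cons l ls ih => rw [flatMap_cons, flatten_append, cnt_append, cnt_rep, ih, map_cons, sum_cons]

theorem single {F : σ → Prop} {f : Z → List (Fin k)} (j0 : Fin k)
    (H : ∀ w : List Z, F (w.foldl δ s) → (w.flatMap f).Pairwise (· ≤ ·)) {w c : List Z}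
    (hw : F (w.foldl δ s)) (hc : Cyc δ s w c) : ∃ m, ∀ j, j ≠ m → cnt f j c = 0 := by
  obtain ⟨_, ⟨a, ⟨b, rfl⟩, rfl⟩, e⟩ := hc
  have := H (a ++ (c ++ c) ++ b) (by simpa [e] using hw)
  simp only [flatMap_append, pairwise_append] at this
  have h1 := this.1.2.1.2.2
  cases hc : c.flatMap f with
  | nil => exact ⟨j0, fun j _ => by simp [cnt, hc]⟩
  | cons m t =>
    have hm : m ∈ c.flatMap f := by simp [hc]
    exact ⟨m, fun j hj => count_eq_zero.2 fun h => hj (le_antisymm (h1 _ h _ hm) (h1 _ hm _ h))⟩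

theorem exists_pos {f : Z → List (Fin k)} {j : Fin k} (cs : List (List Z))
    (h : 0 < cnt f j cs.flatten) : ∃ c ∈ cs, 0 < cnt f j c := by
  induction cs with
  | nil => simp [cnt] at h
  | cons c cs ih =>
    rw [flatten_cons, cnt_append] at h
    by_cases h1 : 0 < cnt f j c
    · exact ⟨c, by simp, h1⟩
    · obtain ⟨x, hx, h2⟩ := ih (by omega)
      exact ⟨x, by simp [hx], h2⟩

end Pool.Agent.H.MP_56eb46_lc
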