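import Pool.Agent.H.MP_56eb46_lc.A

set_option autoImplicit false

namespace Pool.Agent.H.MP_56eb46_lc

open List Pool.Agent.Lib.helper21

variable {Z σ : Type} {δ : σ → Z → σ} {s : σ} {k : ℕ} {F : σ → Prop} {h g : Z → List (Fin k)}

theorem many [Finite Z] (K : ℕ) : ∃ B, ∀ cs : List (List Z), (∀ c ∈ cs, c.length ≤ K) →
    ∀ (f : Z → List (Fin k)) j, (∀ z, (f z).length ≤ 1) → B < cnt f j cs.flatten →
      ∃ c ∈ cs, 0 < cnt f j c ∧ replicate K c <+ cs := by
  classical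
  refine ⟨(List.finite_length_le Z K).toFinset.card * K * K, fun cs hcs f j hf hB => ?_⟩
  have p := (filter_append_perm (fun c => decide (replicate K c <+ cs)) cs).flatten
  rw [← cnt_perm f j p, flatten_append, cnt_append] at hB
  set R := cs.filter fun c => !decide (replicate K c <+ cs) with hR
  have h1 : R.length ≤ (List.finite_length_le Z K).toFinset.card * K := by
    rw [← List.sum_toFinset_count_eq_length]
    refine (Finset.sum_le_card_nsmul _ _ K fun c hc => ?_).trans ?_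
    · have hc := mem_filter.1 (mem_toFinset.1 hc)
      simp at hc
      exact le_of_not_ge fun x => hc.2 (((@replicate_sublist_iff _ instBEqOfDecidableEq _ _ _ _).2 x).trans filter_sublist)
    · refine Nat.mul_le_mul_right _ (Finset.card_le_card fun c hc => ?_)
      simpa using hcs c (mem_filter.1 (mem_toFinset.1 hc)).1
  have h2 : R.flatten.length ≤ R.length * K := by
    rw [length_flatten]
    simpa using List.sum_le_card_nsmul (R.map length) K fun x hx => by
      obtain ⟨c, hc, rfl⟩ := mem_map.1 hx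
      exact hcs c (mem_filter.1 hc).1
  have h3 := cnt_le hf j R.flatten
  have h4 := Nat.mul_le_mul_right K h1
  obtain ⟨c, hc, h5⟩ := exists_pos (f := f) (j := j) (cs.filter fun c => decide (replicate K c <+ cs))
    (by omega)
  have hc := mem_filter.1 hc
  exact ⟨c, hc.1, h5, by simpa using hc.2⟩

theorem exch (hk : 3 ≤ k) (H1 : ∀ w : List Z, F (w.foldl δ s) → (w.flatMap h).Pairwise (· ≤ ·))
    {w0 : List Z} {cs : List (List Z)} (h0 : F (w0.foldl δ s)) (hcs : ∀ c ∈ cs, Cyc δ s w0 c)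
    (bad : ∀ w : List Z, F (w.foldl δ s) → (∀ j, cnt g j w = cnt g j (w0 ++ cs.flatten)) →
      ∀ i j, cnt h i w = cnt h j w) {c c' : List Z} (hc : Cyc δ s w0 c) (hc' : Cyc δ s w0 c')
    {t t' : ℕ} (sub : replicate t' c' <+ cs) (e : ∀ j, t * cnt g j c = t' * cnt g j c') (j : Fin k) :
    t * cnt h j c = t' * cnt h j c' := by
  obtain ⟨r, hr⟩ := sub.exists_perm_append
  obtain ⟨w1, a1, -, a2⟩ := real w0 cs hcs
  obtain ⟨w2, b1, -, b2⟩ := real w0 (replicate t c ++ r) (by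
    intro x hx
    rcases mem_append.1 hx with hx | hx
    · rw [eq_of_mem_replicate hx]; exact hc
    · exact hcs x (hr.symm.subset (by simp [hx])))
  have c1 : ∀ (f : Z → List (Fin k)) j, cnt f j (w0 ++ cs.flatten) =
      cnt f j w0 + (t' * cnt f j c' + cnt f j r.flatten) :=
    fun f j => by rw [cnt_append, cnt_perm f j hr.flatten, flatten_append, cnt_append, cnt_rep]
  have c2 : ∀ (f : Z → List (Fin k)) j, cnt f j w2 =
      cnt f j w0 + (t * cnt f j c + cnt f j r.flatten) :=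
    fun f j => by rw [cnt_perm f j b2, cnt_append, flatten_append, cnt_append, cnt_rep]
  obtain ⟨m, hm⟩ := single j H1 h0 hc
  obtain ⟨m', hm'⟩ := single j H1 h0 hc'
  obtain ⟨i, i1, i2⟩ : ∃ i : Fin k, i ≠ m ∧ i ≠ m' := by
    by_contra hn
    push Not at hn
    have : (Finset.univ : Finset (Fin k)) ⊆ {m, m'} := fun i _ => by
      by_cases e : i = m
      · simp [e]
      · simp [hn i e]
    have h1 := Finset.card_le_card this
    have h2 := Finset.card_le_two (a := m) (b := m')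
    simp at h1; omega
  have d1 := bad w1 (a1 ▸ h0) (fun j => cnt_perm g j a2) i j
  have d2 := bad w2 (b1 ▸ h0) (fun j => by rw [c1, c2, e]) i j
  rw [cnt_perm h _ a2, cnt_perm h _ a2, c1, c1, hm' i i2] at d1
  rw [c2, c2, hm i i1] at d2
  omega

variable (δ s F h g)

def A (a b : Fin k → ℕ) : Prop :=
  ∃ w : List Z, F (w.foldl δ s) ∧ (∀ j, cnt h j w = a j) ∧ ∀ j, cnt g j w = b j

def P (b : Fin k → ℕ) : Prop := ∃ a, A δ s F h g a b ∧ ∃ i j, a i ≠ a j

variable {δ s F h g}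

theorem pump1 {w w0 : List Z} {cs : List (List Z)} (h0 : F (w0.foldl δ s))
    (hcs : ∀ c ∈ cs, Cyc δ s w0 c) (hp : w ~ w0 ++ cs.flatten) (e : Fin k → List Z)
    (he : ∀ l, Cyc δ s w0 (e l)) (h1 : ∀ l j, j ≠ l → cnt g j (e l) = 0) (t : Fin k → ℕ) :
    A δ s F h g (fun j => cnt h j w + ∑ l, t l * cnt h j (e l))
      fun j => cnt g j w + t j * cnt g j (e j) := by
  obtain ⟨w1, a1, a2, a3⟩ := real w0 cs hcs
  obtain ⟨w2, b1, b2⟩ := pump (δ := δ) (s := s) (w := w1) e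
    (fun l => let ⟨q, hq, x⟩ := he l; ⟨q, a2 hq, x⟩) t
  refine ⟨w2, by rw [b1, a1]; exact h0, fun j => ?_, fun j => ?_⟩
  · rw [b2, cnt_perm h j (a3.trans hp.symm)]
  · rw [b2, cnt_perm g j (a3.trans hp.symm), Finset.sum_eq_single j]
    · intro l _ hl; rw [h1 l j hl.symm, mul_zero]
    · simp

theorem claimA [Finite σ] (hg : ∀ z, (g z).length ≤ 1)
    (H2 : ∀ w : List Z, F (w.foldl δ s) → (w.flatMap g).Pairwise (· ≤ ·)) {b d : Fin k → ℕ}
    (hb : P δ s F h g b) (hK : ∀ l, Nat.card (σ × Set σ) < b l)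
    (hd : ∀ l, (Nat.card (σ × Set σ)).factorial ∣ d l) {r r' : ℕ} (hr : r ≠ r') :
    P δ s F h g (fun l => b l + r * d l) ∨ P δ s F h g (fun l => b l + r' * d l) := by
  obtain ⟨a, ⟨w, w1, w2, w3⟩, i, j, hij⟩ := hb
  obtain ⟨w0, cs, a1, a2, -, a4, a5⟩ := rep (δ := δ) (s := s) _ w le_rfl
  have h0 : F (w0.foldl δ s) := a2 ▸ w1
  have : ∀ l, ∃ c ∈ cs, 0 < cnt g l c := fun l => exists_pos cs (by
    have := hK l
    rw [← w3, cnt_perm g l a5, cnt_append] at this
    have := cnt_le hg l w0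
    omega)
  choose e he1 he2 using this
  have h1 : ∀ l j, j ≠ l → cnt g j (e l) = 0 := fun l j hj => by
    obtain ⟨m, hm⟩ := single l H2 h0 (a4 _ (he1 l)).2
    obtain rfl : l = m := by by_contra hn; have := hm l hn; have := he2 l; omega
    exact hm j hj
  have hv : ∀ l, d l / cnt g l (e l) * cnt g l (e l) = d l := fun l => Nat.div_mul_cancel
    ((Nat.dvd_factorial (he2 l) ((cnt_le hg _ _).trans (a4 _ (he1 l)).1)).trans (hd l))
  have key : ∀ r, A δ s F h g (fun j => a j + r * ∑ l, d l / cnt g l (e l) * cnt h j (e l))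
      fun l => b l + r * d l := fun r => by
    convert pump1 (h := h) h0 (fun c hc => (a4 c hc).2) a5 e (fun l => (a4 _ (he1 l)).2) h1
      (fun l => r * (d l / cnt g l (e l))) using 3
    · rw [w2]
    · rw [Finset.mul_sum]; simp only [mul_assoc]
    · rw [w3]
    · rw [mul_assoc, hv]
  by_contra hn
  rw [not_or] at hn
  have e1 := not_not.1 fun x => hn.1 ⟨_, key r, i, j, x⟩
  have e2 := not_not.1 fun x => hn.2 ⟨_, key r', i, j, x⟩
  generalize ∑ l, d l / cnt g l (e l) * cnt h i (e l) = x at e1 e2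
  generalize ∑ l, d l / cnt g l (e l) * cnt h j (e l) = y at e1 e2
  have : ((r : ℤ) - r') * (x - y) = 0 := by zify at e1 e2; linarith
  rcases mul_eq_zero.1 this with h3 | h3
  · omega
  · obtain rfl : x = y := by omega
    omega

theorem struct [Finite Z] [Finite σ] (hk : 3 ≤ k) (hh : ∀ z, (h z).length ≤ 1)
    (hg : ∀ z, (g z).length ≤ 1)
    (H1 : ∀ w : List Z, F (w.foldl δ s) → (w.flatMap h).Pairwise (· ≤ ·))
    (H2 : ∀ w : List Z, F (w.foldl δ s) → (w.flatMap g).Pairwise (· ≤ ·)) {K : ℕ}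
    (hK : K = Nat.card (σ × Set σ)) :
    ∃ B, ∀ n b, B < n → A δ s F h g (fun _ => n) b → ¬ P δ s F h g b →
      ∃ p q x y : Fin k → ℕ, (∀ l, 0 < p l ∧ p l ≤ K ∧ q l ≤ K ∧ x l ≤ K * K ∧ y l ≤ K * K ∧
        0 < q l ∧ p l * b l + x l = q l * n + y l) ∧ ∃ κ : Fin k → Fin k,
        ∀ t : Fin k → ℕ, ∃ a, A δ s F h g a (fun l => b l + t l * q l) ∧
          ∀ l, a (κ l) = n + t l * p l := by
  obtain ⟨B, hB⟩ := many (Z := Z) (k := k) K
  refine ⟨K + B, ?_⟩
  rintro n b hn ⟨w, w1, w2, w3⟩ hb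
  obtain ⟨w0, cs, a1, a2, -, a4, a5⟩ := rep (δ := δ) (s := s) _ w le_rfl
  rw [← hK] at a1 a4
  have h0 : F (w0.foldl δ s) := a2 ▸ w1
  have hcs : ∀ c ∈ cs, Cyc δ s w0 c := fun c hc => (a4 c hc).2
  have bad : ∀ w : List Z, F (w.foldl δ s) → (∀ j, cnt g j w = cnt g j (w0 ++ cs.flatten)) →
      ∀ i j, cnt h i w = cnt h j w := fun w' h1 h2 i j => not_not.1 fun x =>
    hb ⟨_, ⟨w', h1, fun _ => rfl, fun j => by rw [h2, ← cnt_perm g j a5, w3]⟩, i, j, x⟩
  have : ∀ j, ∃ c ∈ cs, 0 < cnt h j c ∧ replicate K c <+ cs := fun j =>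
    hB cs (fun c hc => (a4 c hc).1) h j hh (by
      have := w2 j
      rw [cnt_perm h j a5, cnt_append] at this
      have := cnt_le hh j w0
      beta_reduce at *
      omega)
  choose c c1 c2 c3 using this
  have ex : ∀ {x : List Z}, x ∈ cs → ∀ i {t t' : ℕ}, t' ≤ K →
      (∀ j, t * cnt g j x = t' * cnt g j (c i)) → ∀ j, t * cnt h j x = t' * cnt h j (c i) :=
    fun hx i _ _ ht e j => exch hk H1 h0 hcs bad (hcs _ hx) (hcs _ (c1 i))
      (((replicate_sublist_replicate _).2 ht).trans (c3 i)) e j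
  have s1 : ∀ j i, i ≠ j → cnt h i (c j) = 0 := fun l j hj => by
    obtain ⟨m, hm⟩ := single l H1 h0 (hcs _ (c1 l))
    obtain rfl : l = m := by by_contra hn; have := hm l hn; have := c2 l; omega
    exact hm j hj
  choose m hm using fun j => single j H2 h0 (hcs _ (c1 j))
  have le : ∀ {f : Z → List (Fin k)}, (∀ z, (f z).length ≤ 1) → ∀ {x}, x ∈ cs → ∀ j,
    cnt f j x ≤ K := fun hf x hx j => (cnt_le hf j x).trans (a4 x hx).1
  have s2 : ∀ j, 0 < cnt g (m j) (c j) := fun j => Nat.pos_of_ne_zero fun e => by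
    have := ex (c1 j) j (t := 1) (t' := 0) (by omega) (fun i => by
      by_cases hi : i = m j
      · simp [hi, e]
      · simp [hm j i hi]) j
    have := c2 j
    omega
  have s3 : ∀ x ∈ cs, ∀ i, (∀ j, j ≠ m i → cnt g j x = 0) → ∀ j,
      cnt g (m i) (c i) * cnt h j x = cnt g (m i) x * cnt h j (c i) := fun x hx i hi =>
    ex hx i (le hg hx _) fun j => by
      by_cases hj : j = m i
      · rw [hj, mul_comm]
      · simp [hi j hj, hm i j hj]
  have inj : Function.Injective m := fun i j e => by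
    by_contra hn
    have := s3 _ (c1 j) i (e ▸ hm j) j
    rw [s1 i j (Ne.symm hn), mul_zero] at this
    exact (Nat.mul_pos (s2 i) (c2 j)).ne' this
  obtain ⟨κ, hκ⟩ := (Finite.injective_iff_surjective.1 inj).hasRightInverse
  have κi : Function.Injective κ := hκ.injective
  have s4 : ∀ x ∈ cs, ∀ l, cnt h (κ l) (c (κ l)) * cnt g l x =
      cnt g l (c (κ l)) * cnt h (κ l) x := fun x hx l => by
    obtain ⟨m', hm'⟩ := single l H2 h0 (hcs x hx)
    have := s3 x hx (κ m') (by rw [hκ]; exact hm') (κ l)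
    rw [hκ] at this
    by_cases e : l = m'
    · subst e; rw [this, mul_comm]
    · rw [s1 _ _ (κi.ne e), mul_zero] at this
      have h2 := s2 (κ m')
      rw [hκ] at h2
      rw [hm' l e, (mul_eq_zero.1 this).resolve_left h2.ne', mul_zero, mul_zero]
  have s5 : ∀ ds : List (List Z), (∀ x ∈ ds, x ∈ cs) → ∀ l,
      cnt h (κ l) (c (κ l)) * cnt g l ds.flatten =
      cnt g l (c (κ l)) * cnt h (κ l) ds.flatten := fun ds hd l => by
    induction ds with
    | nil => simp [cnt]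
    | cons x ds ih =>
      rw [flatten_cons, cnt_append, cnt_append, mul_add, mul_add, s4 x (hd x (by simp)),
        ih fun y hy => hd y (by simp [hy])]
  refine ⟨fun l => cnt h (κ l) (c (κ l)), fun l => cnt g l (c (κ l)),
    fun l => cnt g l (c (κ l)) * cnt h (κ l) w0, fun l => cnt h (κ l) (c (κ l)) * cnt g l w0,
    fun l => ⟨c2 _, le hh (c1 _) _, le hg (c1 _) _,
      Nat.mul_le_mul (le hg (c1 _) _) ((cnt_le hh _ _).trans a1),
      Nat.mul_le_mul (le hh (c1 _) _) ((cnt_le hg _ _).trans a1),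
      by have := s2 (κ l); rwa [hκ] at this, ?_⟩, κ, fun t => ?_⟩
  · have e1 : n = _ := (w2 (κ l)).symm
    rw [← w3, e1, cnt_perm _ _ a5, cnt_perm _ _ a5, cnt_append, cnt_append, mul_add, mul_add,
      s5 cs (fun _ h => h)]
    ring
  · have := pump1 (h := h) h0 hcs a5 (fun l => c (κ l)) (fun l => hcs _ (c1 _))
      (fun l j hj => hm _ _ (by rwa [hκ])) t
    simp only [w2, w3] at this
    refine ⟨_, this, fun l => ?_⟩
    rw [Finset.sum_eq_single l]
    · intro j _ hj; rw [s1 _ _ (κi.ne hj.symm), mul_zero]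
    · simp

theorem core [Finite Z] [Finite σ] (hk : 3 ≤ k) (hh : ∀ z, (h z).length ≤ 1)
    (hg : ∀ z, (g z).length ≤ 1)
    (H1 : ∀ w : List Z, F (w.foldl δ s) → (w.flatMap h).Pairwise (· ≤ ·))
    (H2 : ∀ w : List Z, F (w.foldl δ s) → (w.flatMap g).Pairwise (· ≤ ·))
    (unb : ∀ N, ∃ n b, N ≤ n ∧ A δ s F h g (fun _ => n) b ∧ ¬ P δ s F h g b) :
    ∃ b d : Fin k → ℕ, ∀ t : Fin k → ℕ,
      P δ s F h g (fun l => b l + t l * d l) ↔ ∃ i j, t i ≠ t j := by
  obtain ⟨B, hB⟩ := struct hk hh hg H1 H2 rfl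
  have cA := @claimA Z σ δ s k F h g _ hg H2
  generalize Nat.card (σ × Set σ) = K at hB cA
  have hG : 0 < K.factorial := K.factorial_pos
  have hD : ∀ p, 0 < p → p ≤ K → K.factorial / p * p = K.factorial := fun p h1 h2 =>
    Nat.div_mul_cancel (Nat.dvd_factorial h1 h2)
  generalize K.factorial = G at cA hG hD
  let Q : (Fin k → ℕ) × (Fin k → ℕ) × (Fin k → ℕ) × (Fin k → ℕ) × ℕ → ℕ → (Fin k → ℕ) → Prop :=
    fun τ n b => ¬ P δ s F h g b ∧ n % (G * G) = τ.2.2.2.2 ∧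
      (∀ l, 0 < τ.1 l ∧ τ.1 l ≤ K ∧ τ.2.2.1 l ≤ K * K ∧ 0 < τ.2.1 l ∧
        τ.1 l * b l + τ.2.2.1 l = τ.2.1 l * n + τ.2.2.2.1 l) ∧
      ∃ κ : Fin k → Fin k, ∀ t : Fin k → ℕ, ∃ a, A δ s F h g a (fun l => b l + t l * τ.2.1 l) ∧
          ∀ l, a (κ l) = n + t l * τ.1 l
  obtain ⟨⟨p, q, x, y, ρ⟩, hτ⟩ : ∃ τ, ∀ N, ∃ n b, N ≤ n ∧ Q τ n b := by
    by_contra hn
    push Not at hn
    choose N hN using hn
    have fi : ∀ c : ℕ, (Set.Iic (fun _ => c : Fin k → ℕ)).Finite := fun c => Set.finite_Iic _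
    obtain ⟨M, hM⟩ := (((fi K).prod ((fi K).prod ((fi (K * K)).prod ((fi (K * K)).prod
      (Set.finite_Iic (G * G)))))).image N).bddAbove
    obtain ⟨n, b, h1, h2, h3⟩ := unb (M + B + 1)
    obtain ⟨p, q, x, y, h4, h5⟩ := hB n b (by omega) h2 h3
    refine hN (p, q, x, y, n % (G * G)) n b ((hM ⟨_, ?_, rfl⟩).trans (by omega))
      ⟨h3, rfl, fun l => ⟨(h4 l).1, (h4 l).2.1, (h4 l).2.2.2.1, (h4 l).2.2.2.2.2⟩, h5⟩
    exact ⟨fun l => (h4 l).2.1, fun l => (h4 l).2.2.1, fun l => (h4 l).2.2.2.1,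
      fun l => (h4 l).2.2.2.2.1, (Nat.mod_lt _ (Nat.mul_pos hG hG)).le⟩
  obtain ⟨n, b, h1, -, h2, h3, κ, h4⟩ := hτ (K * K + K * K + 1)
  simp only at h2 h3 h4
  refine ⟨b, fun l => G * (G / p l * q l), fun t => ⟨fun ht => ?_, fun ⟨i, j, hij⟩ => ?_⟩⟩
  · by_contra hn
    push Not at hn
    have i0 : Fin k := ⟨0, by omega⟩
    have far : ∀ r, ∃ r', r ≤ r' ∧ ¬ P δ s F h g fun l => b l + r' * (G * (G / p l * q l)) := by
      intro r
      obtain ⟨n', b', a1, a2, a3, a4, -⟩ := hτ (n + r * (G * G))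
      simp only at a3 a4
      obtain ⟨r', hr⟩ := (Nat.modEq_iff_dvd' (by omega : n ≤ n')).1 (h2.trans a3.symm)
      have h5 : G * G * r ≤ G * G * r' := by rw [mul_comm]; omega
      refine ⟨r', Nat.le_of_mul_le_mul_left h5 (Nat.mul_pos hG hG), ?_⟩
      refine fun hc => a2 ((funext fun l => ?_ : _ = b') ▸ hc)
      obtain ⟨b1, b2, -, -, b3⟩ := h3 l
      obtain ⟨-, -, -, -, b4⟩ := a4 l
      obtain rfl : n' = n + G * G * r' := by omega
      have := hD _ b1 b2
      generalize G / p l = u at this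
      subst this
      apply Nat.eq_of_mul_eq_mul_left b1
      nlinarith
    obtain ⟨r1, a1, a2⟩ := far (t i0)
    obtain ⟨r2, a3, a4⟩ := far (r1 + 1)
    obtain ⟨u1, rfl⟩ := Nat.exists_eq_add_of_le a1
    obtain ⟨u2, rfl⟩ := Nat.exists_eq_add_of_le (by omega : t i0 ≤ r2)
    rcases cA ht (d := fun l => G * (G / p l * q l)) (fun l => by
      obtain ⟨b1, b2, b3, b4, b5⟩ := h3 l
      have : K < b l := by
        by_contra hc
        have := Nat.mul_le_mul b2 (not_lt.1 hc)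
        have := Nat.le_mul_of_pos_left n b4
        omega
      omega) (fun l => Dvd.intro _ rfl) (by omega : u1 ≠ u2) with e | e
    · exact a2 (by convert e using 2 with l; rw [hn l i0]; ring)
    · exact a4 (by convert e using 2 with l; rw [hn l i0]; ring)
  · obtain ⟨a, a1, a2⟩ := h4 fun l => t l * G * (G / p l)
    refine ⟨a, by convert a1 using 3; ring, κ i, κ j, ?_⟩
    rw [a2, a2, mul_assoc _ _ (p i), mul_assoc _ _ (p j), hD _ (h3 i).1 (h3 i).2.1,
      hD _ (h3 j).1 (h3 j).2.1]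
    simpa [hG.ne'] using hij

end Pool.Agent.H.MP_56eb46_lc
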